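import Pool.Agent.E8helper11.GS.Stm

/-!
# Project GS, piece BL: selection in one block, one prime after the other
-/

set_option autoImplicit false

open scoped Classical

namespace Pool.Agent.E8helper4.GS

open Pool.Agent.E8helper11.GS Finset

theorem t_BL : S_BL := by
  intro τ T w D P h m l hw hl hm hP
  induction m with
  | zero =>
    refine ⟨∅, empty_subset _, card_empty, ?_⟩
    simp
  | succ m ih =>
    obtain ⟨B, hBD, hBc, hB⟩ := ih (by omega)
    obtain ⟨c, hc⟩ : ∃ c : ℝ, c = 1 + 2 * l * h / (D.card : ℝ) := ⟨_, rfl⟩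
    have hDpos : (0 : ℝ) < (D.card : ℝ) := by
      have : 0 < D.card := by omega
      exact_mod_cast this
    have hc1 : 0 ≤ c := by rw [hc]; positivity
    have hcard : (D \ B).card = D.card - m := by rw [card_sdiff_of_subset hBD, hBc]
    have hne : (D \ B).Nonempty := by
      rw [← card_pos, hcard]
      omega
    obtain ⟨Φ, hΦ⟩ : ∃ Φ : ℝ, Φ = ∑ s ∈ T, w s * (1 + l) ^ (B.filter (fun q => P s q)).card :=
      ⟨_, rfl⟩
    have hR : (D.card : ℝ) ≤ 2 * ((D \ B).card : ℝ) := by
      have : D.card ≤ 2 * (D \ B).card := by omega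
      exact_mod_cast this
    have hlh : l * (h : ℝ) ≤ ((D \ B).card : ℝ) * (2 * l * h / (D.card : ℝ)) := by
      have h1 : 0 ≤ l * (h : ℝ) := by positivity
      rw [← mul_div_assoc, le_div_iff₀ hDpos]
      nlinarith
    have key : ∑ q ∈ D \ B, ∑ s ∈ T, w s * (1 + l) ^ ((insert q B).filter (fun q => P s q)).card ≤
        ∑ _q ∈ D \ B, c * Φ := by
      rw [sum_comm, sum_const, nsmul_eq_mul, hΦ, mul_sum, mul_sum]
      apply sum_le_sum
      intro s hs
      have h2 : ∀ q ∈ D \ B, w s * (1 + l) ^ ((insert q B).filter (fun q => P s q)).card =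
          w s * (1 + l) ^ (B.filter (fun q => P s q)).card * (1 + l * (if P s q then 1 else 0)) := by
        intro q hq
        have hqB : q ∉ B := (mem_sdiff.1 hq).2
        rw [filter_insert]
        split_ifs with hPq
        · rw [card_insert_of_notMem (fun hh => hqB (mem_filter.1 hh).1), pow_succ]
          ring
        · ring
      rw [sum_congr rfl h2, ← mul_sum, sum_add_distrib, sum_const, nsmul_eq_mul, mul_one,
        ← mul_sum, sum_boole]
      have h3 : (((D \ B).filter (fun q => P s q)).card : ℝ) ≤ h := by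
        have h4 : ((D \ B).filter (fun q => P s q)).card ≤ h :=
          (card_le_card (filter_subset_filter _ sdiff_subset)).trans (hP s hs)
        exact_mod_cast h4
      have h5 : 0 ≤ w s * (1 + l) ^ (B.filter (fun q => P s q)).card :=
        mul_nonneg (hw s hs) (by positivity)
      have h6 : ((D \ B).card : ℝ) + l * (((D \ B).filter (fun q => P s q)).card : ℝ) ≤
          ((D \ B).card : ℝ) * c := by
        rw [hc]
        have := mul_le_mul_of_nonneg_left h3 hl
        linarith
      calc w s * (1 + l) ^ (B.filter (fun q => P s q)).card *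
            (((D \ B).card : ℝ) + l * (((D \ B).filter (fun q => P s q)).card : ℝ)) ≤
            w s * (1 + l) ^ (B.filter (fun q => P s q)).card * (((D \ B).card : ℝ) * c) :=
              mul_le_mul_of_nonneg_left h6 h5
        _ = _ := by ring
    obtain ⟨q, hq, hle⟩ := exists_le_of_sum_le hne key
    rw [mem_sdiff] at hq
    refine ⟨insert q B, insert_subset hq.1 hBD, ?_, ?_⟩
    · rw [card_insert_of_notMem hq.2, hBc]
    · refine hle.trans ?_
      rw [← hΦ, ← hc] at hB
      rw [← hc, pow_succ]
      calc c * Φ ≤ c * (c ^ m * ∑ s ∈ T, w s) := mul_le_mul_of_nonneg_left hB hc1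
        _ = _ := by ring

end Pool.Agent.E8helper4.GS
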